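import Pool.Agent.E8helper36.CF.Stm

/-!
# Project CF (MP_717b2e_co), piece TOP
-/

set_option autoImplicit false

namespace Pool.Agent.E8helper72.CF

open Finset Pool.Agent.E8helper36.CF

theorem t_TOP : S_TOP := by
  intro n M i hi
  have hlt : i < M.m i := by
    rcases lt_trichotomy (M.m i) i with h | h | h
    · have h1 := hi (M.m i) h
      rw [M.inv] at h1
      exact absurd h1 (lt_irrefl i)
    · exact absurd h (M.ne i)
    · exact h
  refine ⟨?_, hlt, ?_⟩
  · have hsum : ∑ _x ∈ Finset.Iio i, (1 : ZMod 2) = 0 := by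
      refine Finset.sum_involution (fun x _ => M.m x) (fun x _ => by decide) (fun x _ _ => M.ne x)
        (fun x hx => ?_) (fun x _ => M.inv x)
      rw [Finset.mem_Iio] at hx ⊢
      exact hi x hx
    rw [Finset.sum_const, nsmul_eq_mul, mul_one, ZMod.natCast_eq_zero_iff, Fin.card_Iio] at hsum
    omega
  · intro j hj k hk
    have hj1 : M.m i < j := by
      rw [Fin.lt_def]
      omega
    have hk1 : k ≤ M.m i := by
      rw [Fin.lt_def] at hk
      rw [Fin.le_def]
      omega
    rcases lt_trichotomy k i with h | h | h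
    · exact lt_trans (lt_trans (hi k h) hlt) hj1
    · rw [h]
      exact hj1
    · rcases eq_or_lt_of_le hk1 with h2 | h2
      · rw [h2, M.inv]
        exact lt_trans hlt hj1
      · have h3 := M.nc i k h h2
        exact lt_of_le_of_lt (not_lt.1 h3) hj1

end Pool.Agent.E8helper72.CF
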